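import Pool.Agent.H90.CNY.Stmts

/-!
# Row YPM: cycle lengths
-/

set_option autoImplicit false

namespace Pool.CND

open Finset

theorem ypm_thm : S_YPM := by
  intro α _ σ d h
  classical
  have e := MulAction.selfEquivSigmaOrbits (Subgroup.zpowers σ) α
  rw [← Nat.card_eq_fintype_card, Nat.card_congr e, Nat.card_sigma]
  refine Finset.dvd_sum fun ω _ => ?_
  rw [Nat.card_congr (MulAction.orbitZPowersEquiv σ ω.out), Nat.card_zmod]
  refine h _ ω.out ?_
  have h1 := (MulAction.pow_smul_eq_iff_minimalPeriod_dvd (a := σ) (b := ω.out)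
    (n := Function.minimalPeriod (σ • ·) ω.out)).2 dvd_rfl
  exact h1

end Pool.CND
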