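import Pool.Agent.H90.CNY.Stmts

/-!
# Row YTH: the tame character
-/

set_option autoImplicit false

namespace Pool.CND

open Finset

namespace YTH18

variable {k L : Type} [Field k] [Field L] [Algebra k L] (P : Place k L)

theorem uniq {x : L} {c c' : k} (h : P.Ge (x - algebraMap k L c * P.pi) 2)
    (h' : P.Ge (x - algebraMap k L c' * P.pi) 2) : c = c' := by
  by_contra hne
  have h1 : P.Ge (algebraMap k L (c' - c) * P.pi) 2 := by
    have h2 := P.ge_sub h h'
    have h3 : x - algebraMap k L c * P.pi - (x - algebraMap k L c' * P.pi) =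
        algebraMap k L (c' - c) * P.pi := by
      rw [map_sub]
      ring
    rw [h3] at h2
    exact h2
  have hc : c' - c ≠ 0 := sub_ne_zero.2 fun h => hne h.symm
  have hc2 : algebraMap k L (c' - c) ≠ 0 := by
    rw [Ne, map_eq_zero]
    exact hc
  rw [P.ge_iff (mul_ne_zero hc2 P.pi_ne), P.ord_mul _ _ hc2 P.pi_ne, P.ord_const _ hc, P.ord_pi]
    at h1
  omega

end YTH18

theorem yth_thm (hEXP : S_EXP) (hLON : S_LON) : S_YTH := by
  intro k L G _ _ _ _ P ρ W I hW hI
  classical
  have hfix : ∀ g ∈ I, Fixes P (ρ g) := by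
    intro g hg
    have h1 : g ∈ (I : Set G) := hg
    rw [hI] at h1
    exact h1.1
  have hex : ∀ g : G, ∃ c : k, g ∈ I → c ≠ 0 ∧ P.Ge (ρ g P.pi - algebraMap k L c * P.pi) 2 := by
    intro g
    by_cases hg : g ∈ I
    · have h0 : ρ g P.pi ≠ 0 := by
        rw [Ne, map_eq_zero_iff _ (ρ g).injective]
        exact P.pi_ne
      have h1 : P.ord (ρ g P.pi) = 1 := by
        rw [hfix g hg _ P.pi_ne, P.ord_pi]
      obtain ⟨c, hc, h2⟩ := hEXP k L P P.pi (ρ g P.pi) P.pi_ne P.ord_pi h0
      rw [h1, zpow_one] at h2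
      exact ⟨c, fun _ => ⟨hc, h2⟩⟩
    · exact ⟨1, fun h => absurd h hg⟩
  choose ζ hζ using hex
  refine ⟨ζ, ⟨fun g hg => (hζ g hg).1, ?_, ?_⟩, fun g hg => (hζ g hg).2⟩
  · intro g hg h hh
    apply YTH18.uniq P (hζ (g * h) (I.mul_mem hg hh)).2
    have h1 : ρ (g * h) P.pi - algebraMap k L (ζ g * ζ h) * P.pi =
        ρ g (ρ h P.pi - algebraMap k L (ζ h) * P.pi) +
          algebraMap k L (ζ h) * (ρ g P.pi - algebraMap k L (ζ g) * P.pi) := by
      rw [map_mul ρ, AlgEquiv.mul_apply, map_sub, map_mul (ρ g), AlgEquiv.commutes, map_mul]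
      ring
    rw [h1]
    apply P.ge_add ((hfix g hg).ge (hζ h hh).2)
    have h2 := P.ge_mul (P.ge_const (ζ h)) (hζ g hg).2
    rw [zero_add] at h2
    exact h2
  · intro g hg
    have hWg : g ∈ W ↔ g ∈ ram P ρ 1 := by
      rw [← hW]
      rfl
    rw [hWg]
    constructor
    · intro h1
      have h2 := (hζ g hg).2
      rw [h1, map_one, one_mul] at h2
      refine ⟨hfix g hg, ?_⟩
      intro u hu hu1
      have h3 := hLON k L P (ρ g) P.pi 1 (hfix g hg) P.pi_ne P.ord_pi (by omega) h2 u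
      rcases h3 with h3 | h3
      · rw [hu1] at h3
        rcases h3 with h3 | h3
        · exact Or.inl (sub_eq_zero.1 h3)
        · refine Or.inr ?_
          rw [Nat.cast_one]
          exact h3
      · exact absurd h3 hu
    · rintro ⟨-, h1⟩
      have h2 : P.Ge (ρ g P.pi - algebraMap k L 1 * P.pi) 2 := by
        rw [map_one, one_mul]
        rcases h1 P.pi P.pi_ne P.ord_pi with h3 | h3
        · exact Or.inl (sub_eq_zero.2 h3)
        · refine Or.inr ?_
          rw [Nat.cast_one] at h3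
          exact h3
      exact YTH18.uniq P (hζ g hg).2 h2

end Pool.CND
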